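import Pool.Agent.Q83.SG.Stm

/-!
# Project SG: basic lemmas (helper211)
-/

set_option autoImplicit false

namespace Pool.Agent.Q211.SG

open Pool.Agent.Q83.SG

theorem mem_bonds {m : ℕ} {Λ : Finset (Site m)} {b : Bond m} :
    b ∈ bonds Λ ↔ b.1 ∈ Λ ∨ far b ∈ Λ := by
  unfold bonds far
  simp only [Finset.mem_biUnion, Finset.mem_univ, true_and, Finset.mem_insert,
    Finset.mem_singleton]
  constructor
  · rintro ⟨v, hv, a, h | h⟩
    · exact Or.inl (by rw [h]; exact hv)
    · right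
      rw [h]
      simpa using hv
  · rintro (h | h)
    · exact ⟨b.1, h, b.2, Or.inl rfl⟩
    · refine ⟨_, h, b.2, Or.inr ?_⟩
      rw [add_sub_cancel_right]

theorem mem_bd {D : Finset Pt} {a : Ed} :
    a ∈ bd D ↔ ¬ (a.1 ∈ D ↔ a.1 + un a.2 ∈ D) := by
  unfold bd
  rw [Finset.mem_filter]
  constructor
  · exact fun h => h.2
  · intro h
    refine ⟨?_, h⟩
    simp only [Finset.mem_biUnion, Finset.mem_univ, true_and, Finset.mem_insert,
      Finset.mem_singleton]
    by_cases h1 : a.1 ∈ D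
    · exact ⟨a.1, h1, a.2, Or.inl rfl⟩
    · have h2 : a.1 + un a.2 ∈ D := by
        by_contra h2
        exact h ⟨fun h3 => absurd h3 h1, fun h3 => absurd h3 h2⟩
      refine ⟨_, h2, a.2, Or.inr ?_⟩
      rw [add_sub_cancel_right]

theorem sw_mem {m : ℕ} {T : Finset (Site m)} (σ : Site m → ℝ) {v : Site m} (h : v ∈ T) :
    sw T σ v = - σ v := if_pos h

theorem sw_not {m : ℕ} {T : Finset (Site m)} (σ : Site m → ℝ) {v : Site m} (h : v ∉ T) :
    sw T σ v = σ v := if_neg h

theorem sw_symm {m : ℕ} (T U : Finset (Site m)) (τ : Site m → ℝ) :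
    sw (symmDiff T U) τ = sw U (sw T τ) := by
  funext v
  by_cases h1 : v ∈ T <;> by_cases h2 : v ∈ U
  · rw [sw_mem _ h2, sw_mem _ h1, sw_not, neg_neg]
    rw [Finset.mem_symmDiff]
    tauto
  · rw [sw_not _ h2, sw_mem _ h1, sw_mem]
    rw [Finset.mem_symmDiff]
    tauto
  · rw [sw_mem _ h2, sw_not _ h1, sw_mem]
    rw [Finset.mem_symmDiff]
    tauto
  · rw [sw_not _ h2, sw_not _ h1, sw_not]
    rw [Finset.mem_symmDiff]
    tauto

theorem dir_ne {m : ℕ} (a : Fin 3 ⊕ Fin m) : (dir a : Site m) ≠ 0 := by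
  cases a with
  | inl i =>
    intro h
    have := congrFun (congrArg Prod.fst h) i
    simp [dir, un] at this
  | inr j =>
    intro h
    have := congrFun (congrArg Prod.snd h) j
    simp [dir] at this

end Pool.Agent.Q211.SG
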