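import Mathlib

/-!
# Sequentially pseudocompact groups which are not selectively sequentially pseudocompact
-/

namespace Q211.SG

open Set Filter Topology Cardinal

/-- Sequential pseudocompactness. -/
def SeqPC (X : Type*) [TopologicalSpace X] : Prop :=
  ∀ U : ℕ → Set X, (∀ n, IsOpen (U n) ∧ (U n).Nonempty) →
    ∃ J : Set ℕ, J.Infinite ∧ ∃ x : X, ∀ W : Set X, IsOpen W → x ∈ W →
      {n | n ∈ J ∧ W ∩ U n = ∅}.Finite

/-- Selective sequential pseudocompactness. -/
def SelSeqPC (X : Type*) [TopologicalSpace X] : Prop :=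
  ∀ U : ℕ → Set X, (∀ n, IsOpen (U n) ∧ (U n).Nonempty) →
    ∃ x : ℕ → X, (∀ n, x n ∈ U n) ∧
      ∃ φ : ℕ → ℕ, StrictMono φ ∧ ∃ a : X, Tendsto (x ∘ φ) atTop (𝓝 a)

/-- The index set: the initial ordinal of cardinality continuum. -/
abbrev I : Type := (𝔠 : Cardinal.{0}).ord.ToType

theorem mk_I : #I = 𝔠 := by simp [I]

instance : Nonempty I := by
  rw [← mk_ne_zero_iff, mk_I]
  exact continuum_ne_zero

instance : Infinite I := by
  rw [infinite_iff, mk_I]
  exact aleph0_le_continuum

theorem bounded {ι : Type*} [Countable ι] (f : ι → I) : ∃ b, ∀ i, f i < b := by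
  by_contra hcon
  push Not at hcon
  have hc : IsCofinal (range f) := by
    intro b
    obtain ⟨i, hi⟩ := hcon b
    exact ⟨f i, mem_range_self i, hi⟩
  have h1 := Order.cof_le hc
  rw [Ordinal.cof_toType] at h1
  have h2 : #(range f) ≤ ℵ₀ := by
    rw [mk_le_aleph0_iff]
    exact (countable_range f).to_subtype
  have h3 := Cardinal.lt_power_cof_ord (c := (𝔠 : Cardinal.{0})) aleph0_le_continuum
  have h4 : (𝔠 : Cardinal.{0}) ^ (𝔠 : Cardinal.{0}).ord.cof ≤ 𝔠 ^ (ℵ₀ : Cardinal.{0}) :=
    power_le_power_left continuum_ne_zero (h1.trans h2)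
  rw [continuum_power_aleph0] at h4
  exact absurd (h3.trans_le h4) (lt_irrefl _)

theorem exists_enum {T : Type} [Nonempty T] (hT : #T ≤ 𝔠) :
    ∃ F : I → T, ∀ t γ, ∃ α, γ < α ∧ F α = t := by
  have h1 : #(I × T) ≤ #I := by
    rw [mk_prod, lift_id, lift_id, mk_I]
    exact (mul_le_mul' le_rfl hT).trans continuum_mul_self.le
  obtain ⟨e⟩ := (Cardinal.le_def _ _).1 h1
  classical
  refine ⟨fun α => (Function.invFun e α).2, fun t γ => ?_⟩
  by_contra hcon
  push Not at hcon
  have h2 : ∀ i : I, e (i, t) ≤ γ := by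
    intro i
    by_contra h
    refine hcon (e (i, t)) (not_le.1 h) ?_
    show (Function.invFun e (e (i, t))).2 = t
    rw [Function.leftInverse_invFun e.injective]
  obtain ⟨γ', hγ'⟩ := bounded (fun _ : Unit => γ)
  have h3 : #I ≤ #(Iio γ') := by
    refine mk_le_of_injective (f := fun i => ⟨e (i, t), (h2 i).trans_lt (hγ' ())⟩) ?_
    intro i j hij
    have := e.injective (Subtype.mk.inj hij)
    exact (Prod.mk.inj this).1
  have h4 : #(Iio γ') < #I := by
    rw [mk_I]
    exact mk_Iio_toType_ord_lt γ'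
  exact absurd (h3.trans_lt h4) (lt_irrefl _)

/-- A functional separating an infinite set of vectors. -/
theorem exists_functional {V : Type} [AddCommGroup V] [Module (ZMod 2) V] {t : ℕ → V}
    (ht : Function.Injective t) : ∃ L : V →ₗ[ZMod 2] ZMod 2,
      (∀ N, ∃ n, N ≤ n ∧ L (t n) = 0) ∧ (∀ N, ∃ n, N ≤ n ∧ L (t n) = 1) := by
  classical
  obtain ⟨B, hBs, hBspan, hBli⟩ := exists_linearIndependent (ZMod 2) (range t)
  have hBinf : B.Infinite := by
    intro hfin
    have h1 : Module.Finite (ZMod 2) (Submodule.span (ZMod 2) B) :=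
      Module.Finite.span_of_finite _ hfin
    have h2 : Finite (Submodule.span (ZMod 2) B) := Module.finite_of_finite (ZMod 2)
    have h3 : (range t) ⊆ (Submodule.span (ZMod 2) B : Set V) := by
      rw [hBspan]
      exact Submodule.subset_span
    have h4 : (range t).Finite := (Set.toFinite _).subset h3
    exact (infinite_range_of_injective ht) h4
  set j := hBinf.natEmbedding with hj
  set B₁ : Set V := range fun n : ℕ => (j (2 * n) : V) with hB₁
  have hBli' : LinearIndepOn (ZMod 2) id B := hBli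
  set b := Module.Basis.extend hBli' with hb
  set L : V →ₗ[ZMod 2] ZMod 2 := b.constr (ZMod 2) (fun x => if (x : V) ∈ B₁ then 1 else 0) with hL
  have hLB : ∀ x ∈ B, L x = if x ∈ B₁ then 1 else 0 := by
    intro x hx
    have hx' : x ∈ hBli'.extend (subset_univ B) := hBli'.subset_extend _ hx
    have h1 : b ⟨x, hx'⟩ = x := Module.Basis.extend_apply_self hBli' _
    have h2 := b.constr_basis (ZMod 2) (fun x => if (x : V) ∈ B₁ then (1 : ZMod 2) else 0) ⟨x, hx'⟩
    rw [h1] at h2
    exact h2
  have key : ∀ k : ℕ → V, Function.Injective k → (∀ n, k n ∈ B) → ∀ N, ∃ n, N ≤ n ∧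
      ∃ i, t n = k i := by
    intro k hk hkB N
    have h1 : ∀ i, ∃ n, t n = k i := fun i => hBs (hkB i)
    choose f hf using h1
    have hfi : Function.Injective f := by
      intro a c h
      apply hk
      rw [← hf a, ← hf c, h]
    obtain ⟨i, hi⟩ : ∃ i, N ≤ f i := by
      by_contra hcon
      push Not at hcon
      have : (range f).Finite := (Set.finite_Iio N).subset (by
        rintro _ ⟨i, rfl⟩
        exact hcon i)
      exact infinite_range_of_injective hfi this
    exact ⟨f i, hi, i, hf i⟩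
  refine ⟨L, fun N => ?_, fun N => ?_⟩
  · obtain ⟨n, hn, i, hi⟩ := key (fun n => (j (2 * n + 1) : V)) (by
      intro a c h
      have := j.injective (Subtype.ext h)
      omega) (fun n => (j (2 * n + 1)).2) N
    refine ⟨n, hn, ?_⟩
    rw [hi, hLB _ (j (2 * i + 1)).2, if_neg]
    rintro ⟨c, hc⟩
    have := j.injective (Subtype.ext hc)
    omega
  · obtain ⟨n, hn, i, hi⟩ := key (fun n => (j (2 * n) : V)) (by
      intro a c h
      have := j.injective (Subtype.ext h)
      omega) (fun n => (j (2 * n)).2) N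
    refine ⟨n, hn, ?_⟩
    rw [hi, hLB _ (j (2 * i)).2, if_pos]
    exact ⟨i, rfl⟩

end Q211.SG
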