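import Pool.Agent.Q211.SG.Bas

/-!
# Project SG, job ENE: the energy identity (helper211)
-/

set_option autoImplicit false

namespace Pool.Agent.Q211.SG

open Pool.Agent.Q83.SG

/-- leaving a finite set -/
theorem exit (D : Finset Pt) (u : Pt) (hu : u ≠ 0) (x : Pt) (hx : x ∈ D) :
    ∃ t : ℕ, x + (t : ℤ) • u ∈ D ∧ x + ((t + 1 : ℕ) : ℤ) • u ∉ D := by
  by_contra hc
  push Not at hc
  have hall : ∀ t : ℕ, x + (t : ℤ) • u ∈ D := by
    intro t
    induction t with
    | zero => simpa using hx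
    | succ t ih => exact hc t ih
  have hinj : Function.Injective fun t : ℕ => x + (t : ℤ) • u := by
    intro a b hab
    have h1 : (a : ℤ) • u = (b : ℤ) • u := add_left_cancel hab
    obtain ⟨i, hi⟩ := Function.ne_iff.1 hu
    have h2 := congrFun h1 i
    simp only [Pi.smul_apply, smul_eq_mul] at h2
    have h3 := mul_right_cancel₀ hi h2
    exact_mod_cast h3
  exact Set.infinite_of_injective_forall_mem hinj hall D.finite_toSet

theorem un_ne (i : Fin 3) : un i ≠ 0 := by
  intro h
  have := congrFun h i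
  simp [un] at this

/-- a set whose boundary is in the boundary of a set in a cube is in the cube -/
theorem in_cube (D S : Finset Pt) (L : ℕ) (hS : ∀ x ∈ S, ∀ i, |x i| ≤ L) (hDS : bd D ⊆ bd S) :
    ∀ x ∈ D, ∀ i, |x i| ≤ L := by
  intro x hx i
  by_contra hc
  rcases le_or_gt 0 (x i) with h0 | h0
  · rw [abs_of_nonneg h0, not_le] at hc
    obtain ⟨t, h1, h2⟩ := exit D (un i) (un_ne i) x hx
    have h3 : ((x + (t : ℤ) • un i, i) : Ed) ∈ bd D := by
      rw [mem_bd]
      intro h
      apply h2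
      have h4 := h.1 h1
      have e : x + ((t + 1 : ℕ) : ℤ) • un i = x + (t : ℤ) • un i + un i := by
        push_cast
        rw [add_smul, one_smul, add_assoc]
      rw [e]
      exact h4
    have h4 := hDS h3
    rw [mem_bd] at h4
    apply h4
    have h5 : ∀ s : ℤ, 0 ≤ s → x + s • un i ∉ S := by
      intro s hs hmem
      have := hS _ hmem i
      have e : (x + s • un i) i = x i + s := by simp [un]
      rw [e, abs_le] at this
      omega
    have e : x + (t : ℤ) • un i + un i = x + ((t : ℤ) + 1) • un i := by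
      rw [add_smul, one_smul, add_assoc]
    constructor
    · intro h; exact absurd h (h5 _ (by omega))
    · intro h
      change x + (t : ℤ) • un i + un i ∈ S at h
      rw [e] at h
      exact absurd h (h5 _ (by omega))
  · rw [abs_of_neg h0, not_le] at hc
    obtain ⟨t, h1, h2⟩ := exit D (-un i) (neg_ne_zero.2 (un_ne i)) x hx
    have e : x + (t : ℤ) • (-un i) = x + ((t + 1 : ℕ) : ℤ) • (-un i) + un i := by
      push_cast
      rw [add_smul, one_smul]
      abel
    have h3 : ((x + ((t + 1 : ℕ) : ℤ) • (-un i), i) : Ed) ∈ bd D := by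
      rw [mem_bd]
      intro h
      apply h2
      apply h.2
      change x + ((t + 1 : ℕ) : ℤ) • (-un i) + un i ∈ D
      rw [← e]
      exact h1
    have h4 := hDS h3
    rw [mem_bd] at h4
    apply h4
    have h5 : ∀ s : ℤ, 0 ≤ s → x + s • (-un i) ∉ S := by
      intro s hs hmem
      have := hS _ hmem i
      have e : (x + s • (-un i)) i = x i - s := by
        simp [un, sub_eq_add_neg]
      rw [e, abs_le] at this
      omega
    constructor
    · intro h; exact absurd h (h5 _ (by positivity))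
    · intro h
      change x + ((t + 1 : ℕ) : ℤ) • (-un i) + un i ∈ S at h
      rw [← e] at h
      exact absurd h (h5 _ (by positivity))

theorem mem_box {m L : ℕ} {v : Site m} :
    v ∈ box m L ↔ (∀ i, |v.1 i| ≤ L) ∧ ∀ j, |v.2 j| ≤ L := by
  unfold box
  rw [Finset.mem_product, Fintype.mem_piFinset, Fintype.mem_piFinset]
  simp only [Finset.mem_Icc, abs_le]

theorem mem_prod {m : ℕ} {D : Finset Pt} {h : Fin m → ℤ} {v : Site m} :
    v ∈ (D ×ˢ {h} : Finset (Site m)) ↔ v.1 ∈ D ∧ v.2 = h := by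
  rw [Finset.mem_product, Finset.mem_singleton]

/-- the change of one term -/
theorem term_change {m : ℕ} (h : Fin m → ℤ) (D : Finset Pt) (σ : Site m → ℝ) (J : Bond m → ℝ)
    (b : Bond m) :
    flipAt (vert h D) J b * (sw (D ×ˢ {h}) σ b.1 * sw (D ×ˢ {h}) σ (far b)) =
      J b * (σ b.1 * σ (far b)) ∨
    (∃ i, b.2 = Sum.inl i ∧ b.1.2 = h ∧ ((b.1.1, i) : Ed) ∈ bd D ∧
      flipAt (vert h D) J b * (sw (D ×ˢ {h}) σ b.1 * sw (D ×ˢ {h}) σ (far b)) =
        - (J b * (σ b.1 * σ (far b)))) := by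
  classical
  obtain ⟨v, a⟩ := b
  cases a with
  | inl i =>
    have hf : flipAt (vert h D) J (v, Sum.inl i) = J (v, Sum.inl i) := by
      unfold flipAt
      rw [if_neg]
      intro hv
      have := hv.1
      simp at this
    have hfar1 : (far ((v, Sum.inl i) : Bond m)).1 = v.1 + un i := rfl
    have hfar2 : (far ((v, Sum.inl i) : Bond m)).2 = v.2 := by
      change v.2 + 0 = v.2
      rw [add_zero]
    rw [hf]
    by_cases hh : v.2 = h
    · by_cases h1 : v.1 ∈ D <;> by_cases h2 : v.1 + un i ∈ D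
      · left
        rw [sw_mem _ (mem_prod.2 ⟨h1, hh⟩), sw_mem _ (mem_prod.2 ⟨by rw [hfar1]; exact h2,
          by rw [hfar2]; exact hh⟩)]
        ring
      · right
        refine ⟨i, rfl, hh, mem_bd.2 (fun h3 => h2 (h3.1 h1)), ?_⟩
        rw [sw_mem _ (mem_prod.2 ⟨h1, hh⟩), sw_not _ (fun h3 => h2 (by
          have := (mem_prod.1 h3).1
          rwa [hfar1] at this))]
        ring
      · right
        refine ⟨i, rfl, hh, mem_bd.2 (fun h3 => h1 (h3.2 h2)), ?_⟩
        rw [sw_not _ (fun h3 => h1 (mem_prod.1 h3).1), sw_mem _ (mem_prod.2 ⟨by rw [hfar1]; exact h2,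
          by rw [hfar2]; exact hh⟩)]
        ring
      · left
        rw [sw_not _ (fun h3 => h1 (mem_prod.1 h3).1), sw_not _ (fun h3 => h2 (by
          have := (mem_prod.1 h3).1
          rwa [hfar1] at this))]
    · left
      rw [sw_not _ (fun h3 => hh (mem_prod.1 h3).2), sw_not _ (fun h3 => hh (by
        have := (mem_prod.1 h3).2
        rwa [hfar2] at this))]
  | inr j =>
    left
    have hfar1 : (far ((v, Sum.inr j) : Bond m)).1 = v.1 := by
      change v.1 + 0 = v.1
      rw [add_zero]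
    have hfar2 : (far ((v, Sum.inr j) : Bond m)).2 = v.2 + Pi.single j 1 := rfl
    have hne : v.2 + Pi.single j 1 ≠ v.2 := by
      intro h3
      have := congrFun h3 j
      simp at this
    by_cases hv : ((v, Sum.inr j) : Bond m) ∈ vert h D
    · have hf : flipAt (vert h D) J (v, Sum.inr j) = - J (v, Sum.inr j) := by
        unfold flipAt
        rw [if_pos hv]
      rw [hf]
      obtain ⟨-, hD, h3 | h3⟩ := hv
      · have h4 : far ((v, Sum.inr j) : Bond m) ∉ (D ×ˢ {h} : Finset (Site m)) := by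
          intro h5
          have h6 := (mem_prod.1 h5).2
          rw [hfar2] at h6
          exact hne (h6.trans h3.symm)
        rw [sw_mem _ (mem_prod.2 ⟨hD, h3⟩), sw_not _ h4]
        ring
      · have h4 : v ∉ (D ×ˢ {h} : Finset (Site m)) := by
          intro h5
          have h6 := (mem_prod.1 h5).2
          rw [hfar2] at h3
          exact hne (h3.trans h6.symm)
        rw [sw_not _ h4, sw_mem _ (mem_prod.2 ⟨by rw [hfar1]; exact hD, h3⟩)]
        ring
    · have hf : flipAt (vert h D) J (v, Sum.inr j) = J (v, Sum.inr j) := by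
        unfold flipAt
        rw [if_neg hv]
      rw [hf]
      have h4 : v ∉ (D ×ˢ {h} : Finset (Site m)) := fun h5 =>
        hv ⟨rfl, (mem_prod.1 h5).1, Or.inl (mem_prod.1 h5).2⟩
      have h5 : far ((v, Sum.inr j) : Bond m) ∉ (D ×ˢ {h} : Finset (Site m)) := fun h5 =>
        hv ⟨rfl, by
          have := (mem_prod.1 h5).1
          rwa [hfar1] at this, Or.inr (mem_prod.1 h5).2⟩
      rw [sw_not _ h4, sw_not _ h5]

theorem t_ENE (hC : S_CONTOUR) : S_ENE := by
  intro m L h τ T hτ hc hT h0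
  classical
  obtain ⟨S, hS⟩ : ∃ S : Finset Pt, S = (T.filter fun v => v.2 = h).image Prod.fst := ⟨_, rfl⟩
  have hSm : ∀ x, x ∈ S ↔ (x, h) ∈ T := by
    intro x
    rw [hS, Finset.mem_image]
    constructor
    · rintro ⟨v, hv, rfl⟩
      rw [Finset.mem_filter] at hv
      obtain ⟨hv1, hv2⟩ := hv
      rw [← hv2]
      exact hv1
    · intro hx
      exact ⟨(x, h), Finset.mem_filter.2 ⟨hx, rfl⟩, rfl⟩
  obtain ⟨D, hD, hDS⟩ := hC S ((hSm 0).2 h0)
  have hScube : ∀ x ∈ S, ∀ i, |x i| ≤ L := fun x hx => (mem_box.1 (hT ((hSm x).1 hx))).1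
  have hDcube := in_cube D S L hScube hDS
  have hDbox : (D ×ˢ {h} : Finset (Site m)) ⊆ box m L := by
    intro v hv
    obtain ⟨h1, h2⟩ := mem_prod.1 hv
    rw [mem_box]
    refine ⟨hDcube _ h1, ?_⟩
    rw [h2]
    exact (mem_box.1 (hT h0)).2
  refine ⟨D, hD, hDbox, fun K J hK hJ => ?_⟩
  rw [sw_symm]
  obtain ⟨σ, hσ⟩ : ∃ σ : Site m → ℝ, σ = sw T τ := ⟨_, rfl⟩
  rw [← hσ]
  -- the values at the boundary
  have hneg : ∀ e ∈ bd D, σ (e.1, h) * σ (e.1 + un e.2, h) = -1 := by
    intro e he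
    have h1 := hDS he
    rw [mem_bd, hSm, hSm] at h1
    have hsq : τ (0, h) * τ (0, h) = 1 := by
      rcases hτ (0, h) with h2 | h2 <;> rw [h2] <;> norm_num
    rw [hσ]
    by_cases h2 : (e.1, h) ∈ T <;> by_cases h3 : (e.1 + un e.2, h) ∈ T
    · exact absurd ⟨fun _ => h3, fun _ => h2⟩ h1
    · rw [sw_mem _ h2, sw_not _ h3, hc e.1, hc (e.1 + un e.2)]
      linarith
    · rw [sw_not _ h2, sw_mem _ h3, hc e.1, hc (e.1 + un e.2)]
      linarith
    · exact absurd ⟨fun h4 => absurd h4 h2, fun h4 => absurd h4 h3⟩ h1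
  -- the bonds
  let em : Ed → Bond m := fun e => ((e.1, h), Sum.inl e.2)
  have hem : Function.Injective em := by
    intro e e' hee
    have h1 : e.1 = e'.1 := congrArg (fun b : Bond m => b.1.1) hee
    have h2 : (Sum.inl e.2 : Fin 3 ⊕ Fin m) = Sum.inl e'.2 := congrArg (fun b : Bond m => b.2) hee
    exact Prod.ext h1 (Sum.inl_injective h2)
  have hfarem : ∀ e : Ed, far (em e) = (e.1 + un e.2, h) := by
    intro e
    change ((e.1, h) : Site m) + (un e.2, 0) = _
    rw [Prod.mk_add_mk, add_zero]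
  let g : Bond m → ℝ := fun b =>
    flipAt (vert h D) J b * (sw (D ×ˢ {h}) σ b.1 * sw (D ×ˢ {h}) σ (far b)) -
      J b * (σ b.1 * σ (far b))
  have hval : ∀ (b : Bond m) (i : Fin 3), b.2 = Sum.inl i → b.1.2 = h → ((b.1.1, i) : Ed) ∈ bd D →
      σ b.1 * σ (far b) = -1 ∧ K ≤ J b := by
    rintro ⟨⟨x, y⟩, a⟩ i rfl rfl hb
    refine ⟨?_, hJ x i⟩
    have h1 := hneg _ hb
    have h2 : far (((x, y), Sum.inl i) : Bond m) = (x + un i, y) := by
      change ((x, y) : Site m) + (un i, 0) = _
      rw [Prod.mk_add_mk, add_zero]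
    rw [h2]
    exact h1
  have hg0 : ∀ b, 0 ≤ g b := by
    intro b
    rcases term_change h D σ J b with h1 | ⟨i, h1, h2, h3, h4⟩
    · change 0 ≤ _ - _
      rw [h1, sub_self]
    · change 0 ≤ _ - _
      rw [h4]
      obtain ⟨h5, h6⟩ := hval b i h1 h2 h3
      rw [h5]
      linarith
  have hg1 : ∀ e ∈ bd D, 2 * K ≤ g (em e) := by
    intro e he
    have hK6 := hJ e.1 e.2
    have h5 : σ (em e).1 * σ (far (em e)) = -1 := by
      rw [hfarem]
      exact hneg e he
    rcases term_change h D σ J (em e) with h1 | ⟨i, h1, h2, h3, h4⟩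
    · exfalso
      -- exactly one end is in the set
      have h2 := mem_bd.1 he
      have hf : flipAt (vert h D) J (em e) = J (em e) := by
        unfold flipAt
        rw [if_neg]
        intro hv
        have := hv.1
        simp [em] at this
      rw [hf] at h1
      have hJ0 : J (em e) ≠ 0 := by
        have : K ≤ J (em e) := hK6
        intro h0
        rw [h0] at this
        linarith
      have h3 := mul_left_cancel₀ hJ0 h1
      rw [h5, hfarem] at h3
      rw [hfarem] at h5
      have h5' : σ (e.1, h) * σ (e.1 + un e.2, h) = -1 := h5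
      have h3' : sw (D ×ˢ {h}) σ (e.1, h) * sw (D ×ˢ {h}) σ (e.1 + un e.2, h) = -1 := h3
      by_cases h6 : e.1 ∈ D <;> by_cases h7 : e.1 + un e.2 ∈ D
      · exact h2 ⟨fun _ => h7, fun _ => h6⟩
      · have m1 : ((e.1, h) : Site m) ∈ D ×ˢ ({h} : Finset (Fin m → ℤ)) := mem_prod.2 ⟨h6, rfl⟩
        have m2 : ((e.1 + un e.2, h) : Site m) ∉ D ×ˢ ({h} : Finset (Fin m → ℤ)) :=
          fun h8 => h7 (mem_prod.1 h8).1
        rw [sw_mem _ m1, sw_not _ m2] at h3'
        linarith
      · have m1 : ((e.1 + un e.2, h) : Site m) ∈ D ×ˢ ({h} : Finset (Fin m → ℤ)) :=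
          mem_prod.2 ⟨h7, rfl⟩
        have m2 : ((e.1, h) : Site m) ∉ D ×ˢ ({h} : Finset (Fin m → ℤ)) :=
          fun h8 => h6 (mem_prod.1 h8).1
        rw [sw_not _ m2, sw_mem _ m1] at h3'
        linarith
      · exact h2 ⟨fun h8 => absurd h8 h6, fun h8 => absurd h8 h7⟩
    · change _ ≤ _ - _
      rw [h4, h5]
      have : K ≤ J (em e) := hK6
      linarith
  have hsub : (bd D).image em ⊆ bonds (box m L) := by
    intro b hb
    obtain ⟨e, he, rfl⟩ := Finset.mem_image.1 hb
    rw [mem_bonds]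
    have h1 := mem_bd.1 he
    by_cases h2 : e.1 ∈ D
    · exact Or.inl (hDbox (mem_prod.2 ⟨h2, rfl⟩))
    · right
      rw [hfarem]
      apply hDbox
      refine mem_prod.2 ⟨?_, rfl⟩
      by_contra h3
      exact h1 ⟨fun h4 => absurd h4 h2, fun h4 => absurd h4 h3⟩
  have h1 : 2 * K * (bd D).card ≤ ∑ b ∈ bonds (box m L), g b := by
    refine le_trans ?_ (Finset.sum_le_sum_of_subset_of_nonneg hsub fun b _ _ => hg0 b)
    rw [Finset.sum_image fun a _ b _ hab => hem hab]
    calc 2 * K * (bd D).card = ∑ e ∈ bd D, 2 * K := by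
          rw [Finset.sum_const, nsmul_eq_mul, mul_comm]
      _ ≤ _ := Finset.sum_le_sum fun e he => hg1 e he
  have h2 : ∑ b ∈ bonds (box m L), g b =
      pair (flipAt (vert h D) J) (box m L) (sw (D ×ˢ {h}) σ) - pair J (box m L) σ := by
    unfold pair
    rw [← Finset.sum_sub_distrib]
  rw [h2] at h1
  linarith

end Pool.Agent.Q211.SG
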