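import Pool.Agent.Q211.SG.Bas

/-!
# Project SG, job GEN: genericity (helper211)
-/

set_option autoImplicit false

open MeasureTheory ProbabilityTheory

namespace Pool.Agent.Q211.SG

open Pool.Agent.Q83.SG

/-- a linear combination of independent variables, one of them without atoms -/
theorem null_sum {V : Type} (μ : Measure ℝ) [IsProbabilityMeasure μ] (f : V → ℝ → ℝ)
    (hf : ∀ b, Measurable (f b)) (s : Finset V) (b₀ : V) (hb₀ : b₀ ∉ s)
    (h0 : ∀ y, μ (f b₀ ⁻¹' {y}) = 0) :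
    (Measure.infinitePi fun _ : V => μ) {J | ∑ b ∈ s, f b (J b) + f b₀ (J b₀) = 0} = 0 := by
  classical
  have hind : iIndepFun (fun (b : V) (J : V → ℝ) => f b (J b)) (Measure.infinitePi fun _ : V => μ) :=
    iIndepFun_infinitePi (X := f) hf
  have hm : ∀ b, Measurable (fun J : V → ℝ => f b (J b)) := fun b =>
    (hf b).comp (measurable_pi_apply b)
  have h1 := hind.indepFun_finsetSum_of_notMem hm hb₀
  have hms : Measurable (∑ b ∈ s, fun J : V → ℝ => f b (J b)) := by
    have e : (∑ b ∈ s, fun J : V → ℝ => f b (J b)) = fun J : V → ℝ => ∑ b ∈ s, f b (J b) := by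
      funext J
      rw [Finset.sum_apply]
    rw [e]
    exact Finset.measurable_sum _ fun b _ => hm b
  have h2 := (indepFun_iff_map_prod_eq_prod_map_map hms.aemeasurable (hm b₀).aemeasurable).1 h1
  have hS : MeasurableSet {p : ℝ × ℝ | p.1 + p.2 = 0} :=
    measurableSet_eq_fun (measurable_fst.add measurable_snd) measurable_const
  have h3 : {J : V → ℝ | ∑ b ∈ s, f b (J b) + f b₀ (J b₀) = 0} =
      (fun J : V → ℝ => ((∑ b ∈ s, fun J : V → ℝ => f b (J b)) J, f b₀ (J b₀))) ⁻¹'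
        {p : ℝ × ℝ | p.1 + p.2 = 0} := by
    ext J
    simp
  rw [h3, ← Measure.map_apply (hms.prodMk (hm b₀)) hS, h2, Measure.measure_prod_null hS]
  refine Filter.Eventually.of_forall fun x => ?_
  have h4 : Prod.mk x ⁻¹' {p : ℝ × ℝ | p.1 + p.2 = 0} = {-x} := by
    ext y
    simp only [Set.mem_preimage, Set.mem_setOf_eq, Set.mem_singleton_iff]
    constructor
    · intro h; linarith
    · intro h; linarith
  simp only [h4, Pi.zero_apply]
  rw [Measure.map_apply (hm b₀) (measurableSet_singleton _)]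
  have h5 : (fun J : V → ℝ => f b₀ (J b₀)) ⁻¹' {-x} = (fun J : V → ℝ => J b₀) ⁻¹' (f b₀ ⁻¹' {-x}) :=
    rfl
  rw [h5, ← Measure.map_apply (measurable_pi_apply b₀) (hf b₀ (measurableSet_singleton _)),
    Measure.infinitePi_map_eval]
  exact h0 _

/-- the coupling as a function of the coordinate -/
noncomputable def pf {m : ℕ} (H : Set (Fin m → ℤ)) (ψ : ℝ → ℝ) (b : Bond m) (x : ℝ) : ℝ :=
  plant H ψ (fun _ => x) b

theorem plant_pf {m : ℕ} (H : Set (Fin m → ℤ)) (ψ : ℝ → ℝ) (J : Bond m → ℝ) (b : Bond m) :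
    plant H ψ J b = pf H ψ b (J b) := rfl

theorem pf_meas {m : ℕ} (H : Set (Fin m → ℤ)) {ψ : ℝ → ℝ} (hψ : Measurable ψ) (b : Bond m) :
    Measurable (pf H ψ b) := by
  unfold pf plant
  by_cases h : b.2.isLeft ∧ b.1.2 ∈ H
  · simp only [if_pos h]
    exact hψ
  · simp only [if_neg h]
    exact measurable_id

theorem pf_trans {m : ℕ} (H : Set (Fin m → ℤ)) (ψ : ℝ → ℝ) (v : Site m) (j : Fin m) (x : ℝ) :
    pf H ψ (v, Sum.inr j) x = x := by
  unfold pf plant
  rw [if_neg]
  simp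

/-- a transversal bond with exactly one end in `T` -/
theorem ex_bond {m : ℕ} (hm : 1 ≤ m) (T : Finset (Site m)) (hT : T.Nonempty) :
    ∃ (v : Site m) (j : Fin m), v ∈ T ∧ far (v, Sum.inr j) ∉ T := by
  obtain ⟨v, hv, hmax⟩ := T.exists_max_image (fun v => v.2 ⟨0, hm⟩) hT
  refine ⟨v, ⟨0, hm⟩, hv, fun h => ?_⟩
  have h1 := hmax _ h
  have h2 : (far (v, (Sum.inr ⟨0, hm⟩ : Fin 3 ⊕ Fin m))).2 ⟨0, hm⟩ = v.2 ⟨0, hm⟩ + 1 := by
    simp [far, dir]
  rw [h2] at h1
  omega

theorem t_GEN : S_GEN := by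
  intro m hm μ _ hμ H ψ hψ
  classical
  -- the generic event
  have hgen : ∀ᵐ J ∂(law m μ), ∀ (T : Finset (Site m)) (c : bonds T → ℤ) (b₀ : bonds T),
      c b₀ ≠ 0 → b₀.1.2.isRight → ∑ b : bonds T, (c b : ℝ) * plant H ψ J b.1 ≠ 0 := by
    rw [ae_all_iff]
    intro T
    rw [ae_all_iff]
    intro c
    rw [ae_all_iff]
    intro b₀
    by_cases hc : c b₀ ≠ 0
    swap
    · exact Filter.Eventually.of_forall fun J h => absurd h hc
    by_cases hr : b₀.1.2.isRight
    swap
    · exact Filter.Eventually.of_forall fun J _ h => absurd h hr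
    obtain ⟨c', hc'⟩ : ∃ c' : Bond m → ℝ, ∀ b : bonds T, c' b.1 = c b :=
      ⟨fun b => if h : b ∈ bonds T then c ⟨b, h⟩ else 0, fun b => by
        exact dif_pos b.2⟩
    have h1 := null_sum μ (fun b x => c' b * pf H ψ b x)
      (fun b => (pf_meas H hψ b).const_mul _) ((bonds T).erase b₀.1) b₀.1
      (Finset.notMem_erase _ _) (by
        intro y
        obtain ⟨⟨v, a⟩, hb⟩ := b₀
        cases a with
        | inl i => simp at hr
        | inr j =>
          have hcr : c' (v, Sum.inr j) ≠ 0 := by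
            rw [hc' ⟨(v, Sum.inr j), hb⟩]
            exact_mod_cast hc
          have : (fun x : ℝ => c' (v, Sum.inr j) * pf H ψ (v, Sum.inr j) x) ⁻¹' {y} =
              {y / c' (v, Sum.inr j)} := by
            ext x
            rw [Set.mem_preimage, Set.mem_singleton_iff, Set.mem_singleton_iff, pf_trans,
              eq_div_iff hcr, mul_comm]
          rw [this]
          exact hμ _)
    rw [ae_iff]
    refine measure_mono_null ?_ h1
    intro J hJ
    simp only [Set.mem_setOf_eq, Classical.not_imp, not_not] at hJ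
    have h2 := hJ.2.2
    rw [Set.mem_setOf_eq, ← h2, add_comm,
      Finset.add_sum_erase (bonds T) (fun b => c' b * pf H ψ b (J b)) b₀.2,
      ← Finset.sum_coe_sort (bonds T)]
    exact Finset.sum_congr rfl fun b _ => by rw [hc', plant_pf]
  filter_upwards [hgen] with J hJ σ hσ
  refine ⟨hσ.1, fun ρ hρ hfin hne => ?_⟩
  obtain ⟨T, hTd⟩ : ∃ T : Finset (Site m), T = hfin.toFinset := ⟨_, rfl⟩
  have hTm : ∀ v, v ∈ T ↔ ρ v ≠ σ v := fun v => by rw [hTd, Set.Finite.mem_toFinset]; rfl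
  have hTn : T.Nonempty := by
    by_contra hT
    rw [Finset.not_nonempty_iff_eq_empty] at hT
    apply hne
    funext v
    by_contra h
    have := (hTm v).2 h
    rw [hT] at this
    exact absurd this (Finset.notMem_empty v)
  have hρT : ρ = sw T σ := by
    funext v
    by_cases h : v ∈ T
    · rw [sw_mem _ h]
      have h1 := (hTm v).1 h
      rcases hρ v with h2 | h2 <;> rcases hσ.1 v with h3 | h3 <;> rw [h2, h3] at h1 ⊢ <;>
        first | exact absurd rfl h1 | norm_num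
    · rw [sw_not _ h]
      by_contra h1
      exact h ((hTm v).2 h1)
  -- the sum
  have hsum : ∑ᶠ b : Bond m, plant H ψ J b * (σ b.1 * σ (far b) - ρ b.1 * ρ (far b)) =
      ∑ b ∈ bonds T, plant H ψ J b * (σ b.1 * σ (far b) - ρ b.1 * ρ (far b)) := by
    apply finsum_eq_sum_of_support_subset
    intro b hb
    rw [Function.mem_support] at hb
    rw [Finset.mem_coe, mem_bonds]
    by_contra hc
    push Not at hc
    apply hb
    rw [hρT, sw_not _ hc.1, sw_not _ hc.2, sub_self, mul_zero]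
  rw [hsum]
  have hge : 0 ≤ ∑ b ∈ bonds T, plant H ψ J b * (σ b.1 * σ (far b) - ρ b.1 * ρ (far b)) := by
    have h1 := hσ.2 T
    rw [← hρT] at h1
    unfold pair at h1
    have h2 : ∑ b ∈ bonds T, plant H ψ J b * (σ b.1 * σ (far b) - ρ b.1 * ρ (far b)) =
        ∑ b ∈ bonds T, plant H ψ J b * (σ b.1 * σ (far b)) -
          ∑ b ∈ bonds T, plant H ψ J b * (ρ b.1 * ρ (far b)) := by
      rw [← Finset.sum_sub_distrib]
      exact Finset.sum_congr rfl fun b _ => by ring
    rw [h2]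
    linarith
  refine lt_of_le_of_ne hge (Ne.symm ?_)
  have hz : ∀ b : bonds T, ∃ z : ℤ, (z : ℝ) = σ b.1.1 * σ (far b.1) - ρ b.1.1 * ρ (far b.1) := by
    intro b
    have hi : ∀ x : ℝ, (x = 1 ∨ x = -1) → ∃ z : ℤ, (z : ℝ) = x := by
      rintro x (rfl | rfl)
      · exact ⟨1, by norm_num⟩
      · exact ⟨-1, by norm_num⟩
    obtain ⟨z1, h1⟩ := hi _ (hσ.1 b.1.1)
    obtain ⟨z2, h2⟩ := hi _ (hσ.1 (far b.1))
    obtain ⟨z3, h3⟩ := hi _ (hρ b.1.1)
    obtain ⟨z4, h4⟩ := hi _ (hρ (far b.1))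
    exact ⟨z1 * z2 - z3 * z4, by push_cast; rw [h1, h2, h3, h4]⟩
  choose c hc using hz
  obtain ⟨v, j, hv, hfar⟩ := ex_bond hm T hTn
  have hb₀ : ((v, Sum.inr j) : Bond m) ∈ bonds T := mem_bonds.2 (Or.inl hv)
  have hcb : c ⟨(v, Sum.inr j), hb₀⟩ ≠ 0 := by
    intro h0
    have h1 := hc ⟨(v, Sum.inr j), hb₀⟩
    rw [h0] at h1
    simp only at h1
    rw [hρT, sw_mem _ hv, sw_not _ hfar] at h1
    rcases hσ.1 v with h2 | h2 <;> rcases hσ.1 (far (v, Sum.inr j)) with h3 | h3 <;>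
      rw [h2, h3] at h1 <;> norm_num at h1
  have h1 := hJ T c ⟨(v, Sum.inr j), hb₀⟩ hcb rfl
  intro h2
  apply h1
  rw [← h2, ← Finset.sum_coe_sort (bonds T)]
  exact Finset.sum_congr rfl fun b _ => by rw [hc, mul_comm]

end Pool.Agent.Q211.SG
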