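import Pool.Agent.Q83.SG.Stm

/-!
# Project SG, job MEAS0 (helper211)
-/

set_option autoImplicit false

open MeasureTheory

namespace Pool.Agent.Q211.SG

open Pool.Agent.Q83.SG

theorem plant_meas {m : ℕ} (H : Set (Fin m → ℤ)) {ψ : ℝ → ℝ} (hψ : Measurable ψ) (b : Bond m) :
    Measurable fun J : Bond m → ℝ => plant H ψ J b := by
  unfold plant
  by_cases h : b.2.isLeft ∧ b.1.2 ∈ H
  · simp only [if_pos h]
    exact hψ.comp (measurable_pi_apply b)
  · simp only [if_neg h]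
    exact measurable_pi_apply b

theorem pair_meas {m : ℕ} (H : Set (Fin m → ℤ)) {ψ : ℝ → ℝ} (hψ : Measurable ψ)
    (Λ : Finset (Site m)) (σ : Site m → ℝ) :
    Measurable fun J : Bond m → ℝ => pair (plant H ψ J) Λ σ := by
  unfold pair
  exact Finset.measurable_sum _ fun b _ => (plant_meas H hψ b).mul_const _

theorem ex_meas {m k : ℕ} (H : Set (Fin m → ℤ)) {ψ : ℝ → ℝ} (hψ : Measurable ψ)
    (Λ : Finset (Site m)) (τ : Site m → ℝ) (v : Fin k → Site m) (p : Fin k → Bool) :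
    MeasurableSet {J : Bond m → ℝ | ∃ σ, IsMax Λ τ (plant H ψ J) σ ∧ ∀ i, σ (v i) = sg (p i)} := by
  classical
  have e : {J : Bond m → ℝ | ∃ σ, IsMax Λ τ (plant H ψ J) σ ∧ ∀ i, σ (v i) = sg (p i)} =
      ⋃ T ∈ Λ.powerset.filter (fun T => ∀ i, sw T τ (v i) = sg (p i)), ⋂ T' ∈ Λ.powerset,
        {J : Bond m → ℝ | pair (plant H ψ J) Λ (sw T' τ) ≤ pair (plant H ψ J) Λ (sw T τ)} := by
    ext J
    simp only [Set.mem_setOf_eq, Set.mem_iUnion, Set.mem_iInter, Finset.mem_filter,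
      Finset.mem_powerset, exists_prop]
    constructor
    · rintro ⟨σ, ⟨⟨T, hT, rfl⟩, hm⟩, hp⟩
      exact ⟨T, ⟨hT, hp⟩, hm⟩
    · rintro ⟨T, ⟨hT, hp⟩, hm⟩
      exact ⟨sw T τ, ⟨⟨T, hT, rfl⟩, hm⟩, hp⟩
  rw [e]
  refine Finset.measurableSet_biUnion _ fun T _ => Finset.measurableSet_biInter _ fun T' _ => ?_
  exact measurableSet_le (pair_meas H hψ Λ _) (pair_meas H hψ Λ _)

theorem t_MEAS0 : S_MEAS0 := by
  intro m k L n H ψ hψ v τ
  classical
  obtain ⟨G, hG⟩ : ∃ G : (Bond m → ℝ) → Set (Fin k → Bool), G = fun J => ⋃ s, {p : Fin k → Bool |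
      ∃ σ, IsMax (box m L) (τ s) (plant H ψ J) σ ∧ ∀ i, σ (v i) = sg (p i)} := ⟨_, rfl⟩
  have hmem : ∀ p, MeasurableSet {J | p ∈ G J} := by
    intro p
    have e : {J | p ∈ G J} = ⋃ s, {J : Bond m → ℝ |
        ∃ σ, IsMax (box m L) (τ s) (plant H ψ J) σ ∧ ∀ i, σ (v i) = sg (p i)} := by
      rw [hG]
      ext J
      simp
    rw [e]
    exact MeasurableSet.iUnion fun s => ex_meas H hψ (box m L) (τ s) v p
  have heq : ∀ A : Set (Fin k → Bool), MeasurableSet {J | G J = A} := by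
    intro A
    have e : {J | G J = A} = ⋂ p, {J | p ∈ G J ↔ p ∈ A} := by
      ext J
      simp [Set.ext_iff]
    rw [e]
    refine MeasurableSet.iInter fun p => ?_
    by_cases hp : p ∈ A
    · simp only [hp, iff_true]
      exact hmem p
    · simp only [hp, iff_false]
      exact (hmem p).compl
  have e : {J : Bond m → ℝ | n ≤ (⋃ s, {p : Fin k → Bool |
      ∃ σ, IsMax (box m L) (τ s) (plant H ψ J) σ ∧ ∀ i, σ (v i) = sg (p i)}).ncard} =
      ⋃ A : {A : Set (Fin k → Bool) // n ≤ A.ncard}, {J | G J = A.1} := by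
    ext J
    simp only [Set.mem_iUnion, Set.mem_setOf_eq]
    rw [hG]
    constructor
    · intro h
      exact ⟨⟨_, h⟩, rfl⟩
    · rintro ⟨⟨A, hA⟩, h⟩
      have h2 : (⋃ s, {p : Fin k → Bool |
        ∃ σ, IsMax (box m L) (τ s) (plant H ψ J) σ ∧ ∀ i, σ (v i) = sg (p i)}) = A := h
      rwa [h2]
  rw [e]
  exact MeasurableSet.iUnion fun A => heq A.1

end Pool.Agent.Q211.SG
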