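import Pool.Agent.Q83.SG.Stm

/-!
# Project SG, job MIS (helper211)
-/

set_option autoImplicit false

namespace Pool.Agent.Q211.SG

open Pool.Agent.Q83.SG

/-- the configuration with the spins in `T` reversed -/
def rv {m : ℕ} (T : Finset (Site m)) (ω : Site m → Bool) : Site m → Bool :=
  fun v => if v ∈ T then !ω v else ω v

theorem rv_mem {m : ℕ} {T : Finset (Site m)} (ω : Site m → Bool) {v : Site m} (h : v ∈ T) :
    rv T ω v = !ω v := if_pos h

theorem rv_not {m : ℕ} {T : Finset (Site m)} (ω : Site m → Bool) {v : Site m} (h : v ∉ T) :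
    rv T ω v = ω v := if_neg h

theorem glue_mem {m : ℕ} {Λ : Finset (Site m)} (η : Λ → Bool) (ω : Site m → Bool) {v : Site m}
    (h : v ∈ Λ) : glue Λ η ω v = η ⟨v, h⟩ := dif_pos h

theorem glue_not {m : ℕ} {Λ : Finset (Site m)} (η : Λ → Bool) (ω : Site m → Bool) {v : Site m}
    (h : v ∉ Λ) : glue Λ η ω v = ω v := dif_neg h

theorem sg_not (b : Bool) : sg (!b) = - sg b := by
  cases b <;> simp [sg]

theorem bool_ne {a b : Bool} (h : a ≠ b) : (!b) = a := by
  cases a <;> cases b <;> simp_all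

theorem spin_rv {m : ℕ} (T : Finset (Site m)) (ω : Site m → Bool) :
    spin (rv T ω) = sw T (spin ω) := by
  funext v
  unfold spin sw
  by_cases h : v ∈ T
  · rw [if_pos h, rv_mem ω h, sg_not]
  · rw [if_neg h, rv_not ω h]

theorem sum_glue {m : ℕ} (Λ : Finset (Site m)) (ω : Site m → Bool) (F : (Site m → Bool) → ℝ) :
    ∑ η : Λ → Bool, F (glue Λ η ω) = ∑ T ∈ Λ.powerset, F (rv T ω) := by
  classical
  have hg : ∀ η : Λ → Bool, rv (Λ.filter fun v => glue Λ η ω v ≠ ω v) ω = glue Λ η ω := by
    intro η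
    funext v
    by_cases h : v ∈ Λ.filter fun v => glue Λ η ω v ≠ ω v
    · rw [rv_mem ω h]
      exact bool_ne (Finset.mem_filter.1 h).2
    · rw [rv_not ω h]
      by_cases hv : v ∈ Λ
      · by_contra hne
        exact h (Finset.mem_filter.2 ⟨hv, fun h' => hne h'.symm⟩)
      · rw [glue_not η ω hv]
  refine Finset.sum_bij' (fun η _ => Λ.filter fun v => glue Λ η ω v ≠ ω v)
    (fun T _ v => rv T ω v) ?_ ?_ ?_ ?_ ?_
  · intro η _
    rw [Finset.mem_powerset]
    exact Finset.filter_subset _ _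
  · intro T _
    exact Finset.mem_univ _
  · intro η _
    funext v
    have h1 := congrFun (hg η) v
    rw [glue_mem η ω v.2] at h1
    exact h1
  · intro T hT
    ext v
    rw [Finset.mem_filter]
    constructor
    · rintro ⟨hv, h⟩
      by_contra hvT
      apply h
      rw [glue_mem _ ω hv]
      exact rv_not ω hvT
    · intro hvT
      have hv := Finset.mem_powerset.1 hT hvT
      refine ⟨hv, ?_⟩
      rw [glue_mem _ ω hv]
      change rv T ω v ≠ ω v
      rw [rv_mem ω hvT]
      cases ω v <;> simp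
  · intro η _
    rw [hg]

theorem t_MIS : S_MIS := by
  intro m J Λ ω v hv
  classical
  unfold fv mis
  rw [sum_glue Λ ω (fun ω' => Real.exp (pair J Λ (spin ω')) *
    Set.indicator {ω' | ω' v ≠ ω v} (fun _ => (1 : ℝ)) ω'),
    sum_glue Λ ω (fun ω' => Real.exp (pair J Λ (spin ω')))]
  congr 1
  · rw [Finset.sum_filter]
    refine Finset.sum_congr rfl fun T _ => ?_
    rw [spin_rv]
    by_cases h : v ∈ T
    · rw [if_pos h, Set.indicator_of_mem, mul_one]
      change rv T ω v ≠ ω v
      rw [rv_mem ω h]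
      cases ω v <;> simp
    · rw [if_neg h, Set.indicator_of_notMem, mul_zero]
      change ¬ (rv T ω v ≠ ω v)
      rw [rv_not ω h]
      simp
  · refine Finset.sum_congr rfl fun T _ => ?_
    rw [spin_rv]

end Pool.Agent.Q211.SG
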