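import Pool.Agent.Q211.SG.Def

/-!
# The group
-/

namespace Q211.SG

open Set Filter Topology Cardinal

/-- The Boolean group with basis `I`. -/
abbrev V : Type := I →₀ ZMod 2

theorem mk_V : #V = 𝔠 := by
  have h := mk_finsupp_of_infinite I (ZMod 2)
  rw [h, mk_I]
  refine max_eq_left ?_
  exact (lt_aleph0_of_finite (ZMod 2)).le.trans aleph0_le_continuum

theorem exists_f : ∃ f : I → (ℕ → I), ∀ t γ, ∃ α, γ < α ∧ f α = t :=
  exists_enum (by rw [← power_def, mk_I, mk_nat, continuum_power_aleph0])

theorem exists_s : ∃ s : I → (ℕ → V), ∀ t γ, ∃ α, γ < α ∧ s α = t :=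
  exists_enum (by rw [← power_def, mk_V, mk_nat, continuum_power_aleph0])

/-- The requests. -/
noncomputable def f : I → (ℕ → I) := exists_f.choose

theorem f_spec (t : ℕ → I) (γ : I) : ∃ α, γ < α ∧ f α = t := exists_f.choose_spec t γ

/-- The sequences. -/
noncomputable def s : I → (ℕ → V) := exists_s.choose

theorem s_spec (t : ℕ → V) (γ : I) : ∃ α, γ < α ∧ s α = t := exists_s.choose_spec t γ

open Classical in
/-- The functional handling the sequence `s β`. -/
noncomputable def L (β : I) : V →ₗ[ZMod 2] ZMod 2 :=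
  if h : Function.Injective (s β) then (exists_functional h).choose else 0

theorem L_spec {β : I} (h : Function.Injective (s β)) :
    (∀ N, ∃ n, N ≤ n ∧ L β (s β n) = 0) ∧ (∀ N, ∃ n, N ≤ n ∧ L β (s β n) = 1) := by
  unfold L
  rw [dif_pos h]
  exact (exists_functional h).choose_spec

open Classical in
/-- The matrix of the characters. -/
noncomputable def co (β α : I) : ZMod 2 :=
  if β < α then (if β ∈ range (f α) then 1 else 0) else L β (Finsupp.single α 1)

/-- The characters. -/
noncomputable def chi (β : I) : V →ₗ[ZMod 2] ZMod 2 := Finsupp.linearCombination (ZMod 2) (co β)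

theorem chi_single (β α : I) : chi β (Finsupp.single α 1) = co β α := by
  unfold chi
  rw [Finsupp.linearCombination_single, one_smul]

theorem chi_eq_L {β : I} {h : V} (hh : ∀ α ∈ h.support, α ≤ β) : chi β h = L β h := by
  have e : h = h.sum fun a b => b • Finsupp.single a (1 : ZMod 2) := by
    conv_lhs => rw [← Finsupp.sum_single h]
    refine Finsupp.sum_congr fun a _ => ?_
    rw [Finsupp.smul_single, smul_eq_mul, mul_one]
  calc chi β h = h.sum fun a b => b • co β a := Finsupp.linearCombination_apply _ _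
    _ = h.sum fun a b => b • L β (Finsupp.single a 1) := by
        refine Finsupp.sum_congr fun a ha => ?_
        rw [co, if_neg (not_lt.2 (hh a ha))]
    _ = L β (h.sum fun a b => b • Finsupp.single a (1 : ZMod 2)) := by
        rw [map_finsuppSum]
        refine Finsupp.sum_congr fun a _ => ?_
        rw [map_smul]
    _ = L β h := by rw [← e]

/-- The homomorphism into the product. -/
noncomputable def Phi : V →+ (I → ZMod 2) where
  toFun h := fun β => chi β h
  map_zero' := by ext β; simp
  map_add' x y := by ext β; simp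

theorem Phi_apply (h : V) (β : I) : Phi h β = chi β h := rfl

/-- The group. -/
noncomputable def G : AddSubgroup (I → ZMod 2) := Phi.range

theorem dens (A : Set I) (hA : A.Countable) (g : I → ZMod 2) :
    ∃ z : G, ∀ β ∈ A, (z : I → ZMod 2) β = g β := by
  have := hA.to_subtype
  obtain ⟨b, hb⟩ := bounded (fun a : A => (a : I))
  set S : Set I := {β | (β ∈ A ∧ g β ≠ 0) ∨ β = b} with hS
  have hSc : S.Countable := by
    have : S ⊆ A ∪ {b} := by
      rintro β (h | h)
      · exact Or.inl h.1
      · exact Or.inr h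
    exact (hA.union (countable_singleton b)).mono this
  obtain ⟨t, ht⟩ := hSc.exists_eq_range ⟨b, Or.inr rfl⟩
  obtain ⟨α, hα, hfα⟩ := f_spec t b
  refine ⟨⟨Phi (Finsupp.single α 1), Finsupp.single α 1, rfl⟩, fun β hβ => ?_⟩
  show chi β (Finsupp.single α 1) = g β
  have hβb : β < b := hb ⟨β, hβ⟩
  rw [chi_single, co, if_pos (hβb.trans hα), hfα, ← ht]
  by_cases hg : g β = 0
  · rw [if_neg, hg]
    rintro (h | h)
    · exact h.2 hg
    · exact absurd h hβb.ne
  · have h1 : g β = 1 := by
      have : ∀ x : ZMod 2, x ≠ 0 → x = 1 := by decide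
      exact this _ hg
    rw [if_pos (show β ∈ S from Or.inl ⟨hβ, hg⟩), h1]

theorem noconv {x : ℕ → G} (hx : Function.Injective x) (a : G) : ¬ Tendsto x atTop (𝓝 a) := by
  intro hlim
  have h1 : ∀ n, ∃ h : V, Phi h = x n := fun n => (x n).2
  choose t ht using h1
  have hti : Function.Injective t := by
    intro m n h
    apply hx
    apply Subtype.ext
    rw [← ht m, ← ht n, h]
  obtain ⟨γ, hγ⟩ := bounded (fun p : (Σ n : ℕ, (t n).support) => (p.2 : I))
  obtain ⟨β, hβ, hsβ⟩ := s_spec t γ
  have hsi : Function.Injective (s β) := by rw [hsβ]; exact hti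
  obtain ⟨h0, h1⟩ := L_spec hsi
  have hval : ∀ n, (x n : I → ZMod 2) β = L β (s β n) := by
    intro n
    rw [← ht n, Phi_apply, hsβ]
    exact chi_eq_L fun α hα => ((hγ ⟨n, α, hα⟩).trans hβ).le
  have hcont : Continuous fun z : G => (z : I → ZMod 2) β :=
    (continuous_apply β).comp continuous_subtype_val
  have h2 : Tendsto (fun n => (x n : I → ZMod 2) β) atTop (𝓝 ((a : I → ZMod 2) β)) :=
    (hcont.tendsto a).comp hlim
  rw [nhds_discrete, tendsto_pure] at h2
  obtain ⟨N, hN⟩ := eventually_atTop.1 h2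
  obtain ⟨m, hm, hm0⟩ := h0 N
  obtain ⟨n, hn, hn1⟩ := h1 N
  have e1 := hN m hm
  have e2 := hN n hn
  rw [hval] at e1 e2
  rw [hm0] at e1
  rw [hn1] at e2
  rw [← e2] at e1
  exact absurd e1 (by decide)

/-- Basic neighbourhoods. -/
theorem basic {U : Set G} (hU : IsOpen U) {x : G} (hx : x ∈ U) :
    ∃ F : Finset I, ∀ z : G, (∀ β ∈ F, (z : I → ZMod 2) β = (x : I → ZMod 2) β) → z ∈ U := by
  obtain ⟨O, hO, rfl⟩ := isOpen_induced_iff.1 hU
  obtain ⟨F, u, hu, hF⟩ := isOpen_pi_iff.1 hO x.1 hx
  refine ⟨F, fun z hz => hF ?_⟩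
  intro β hβ
  show (z : I → ZMod 2) β ∈ u β
  rw [hz β hβ]
  exact (hu β hβ).2

theorem seqPC : SeqPC G := by
  intro U hU
  choose u hu using fun n => (hU n).2
  choose F hF using fun n => basic (hU n).1 (hu n)
  set A : Set I := ⋃ n, (F n : Set I) with hA
  have hAc : A.Countable := countable_iUnion fun n => (F n).countable_toSet
  have := hAc.to_subtype
  obtain ⟨y, φ, hφ, hlim⟩ := CompactSpace.tendsto_subseq
    (fun n => fun a : A => (u n : I → ZMod 2) a)
  classical
  obtain ⟨x, hx⟩ := dens A hAc (fun β => if h : β ∈ A then y ⟨β, h⟩ else 0)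
  refine ⟨range φ, infinite_range_of_injective hφ.injective, x, fun W hW hxW => ?_⟩
  obtain ⟨E, hE⟩ := basic hW hxW
  have h1 : ∀ β ∈ E, ∀ᶠ k in atTop, β ∈ A →
      (u (φ k) : I → ZMod 2) β = (x : I → ZMod 2) β := by
    intro β _
    by_cases hβ : β ∈ A
    · have h2 := (tendsto_pi_nhds.1 hlim) ⟨β, hβ⟩
      rw [nhds_discrete, tendsto_pure] at h2
      filter_upwards [h2] with k hk _
      have h3 : (u (φ k) : I → ZMod 2) β = y ⟨β, hβ⟩ := hk
      rw [h3, hx β hβ, dif_pos hβ]
    · exact Eventually.of_forall fun k h => absurd h hβ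
  have h2 : ∀ᶠ k in atTop, ∀ β ∈ E, β ∈ A →
      (u (φ k) : I → ZMod 2) β = (x : I → ZMod 2) β := (Finset.eventually_all E).2 h1
  obtain ⟨N, hN⟩ := eventually_atTop.1 h2
  refine ((Set.finite_Iio N).image φ).subset ?_
  rintro n ⟨⟨k, rfl⟩, hk⟩
  refine ⟨k, ?_, rfl⟩
  by_contra hkN
  have hkN' : N ≤ k := not_lt.1 hkN
  obtain ⟨z, hz⟩ := dens (A ∪ E) (hAc.union E.countable_toSet)
    (fun β => if β ∈ A then (u (φ k) : I → ZMod 2) β else (x : I → ZMod 2) β)
  have hzU : z ∈ U (φ k) := by
    refine hF (φ k) z fun β hβ => ?_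
    have hβA : β ∈ A := mem_iUnion.2 ⟨φ k, hβ⟩
    rw [hz β (Or.inl hβA), if_pos hβA]
  have hzW : z ∈ W := by
    refine hE z fun β hβ => ?_
    rw [hz β (Or.inr hβ)]
    split_ifs with h
    · exact hN k hkN' β hβ h
    · rfl
  have : z ∈ (∅ : Set G) := hk ▸ ⟨hzW, hzU⟩
  exact this

theorem not_selSeqPC : ¬ SelSeqPC G := by
  intro h
  set j := Infinite.natEmbedding I with hj
  set U : ℕ → Set G := fun n => {z | (z : I → ZMod 2) (j n) = 1 ∧
    ∀ k < n, (z : I → ZMod 2) (j k) = 0} with hU
  have hcont : ∀ β : I, Continuous fun z : G => (z : I → ZMod 2) β := fun β =>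
    (continuous_apply β).comp continuous_subtype_val
  have hUo : ∀ n, IsOpen (U n) ∧ (U n).Nonempty := by
    intro n
    constructor
    · have e : U n = (fun z : G => (z : I → ZMod 2) (j n)) ⁻¹' {1} ∩
          ⋂ k ∈ Finset.range n, (fun z : G => (z : I → ZMod 2) (j k)) ⁻¹' {0} := by
        ext z
        simp [hU]
      rw [e]
      refine ((isOpen_discrete _).preimage (hcont _)).inter ?_
      exact isOpen_biInter_finset fun k _ => (isOpen_discrete _).preimage (hcont _)
    · classical
      obtain ⟨z, hz⟩ := dens (range j) (countable_range j) (fun β => if β = j n then 1 else 0)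
      refine ⟨z, ?_, fun k hk => ?_⟩
      · rw [hz _ (mem_range_self n), if_pos rfl]
      · rw [hz _ (mem_range_self k), if_neg]
        intro h
        exact hk.ne (j.injective h)
  obtain ⟨x, hx, φ, hφ, a, hlim⟩ := h U hUo
  refine noconv (x := x ∘ φ) ?_ a hlim
  have hxi : Function.Injective x := by
    have key : ∀ m n, m < n → x m ≠ x n := by
      intro m n hmn heq
      have h1 := (hx m).1
      have h2 := (hx n).2 m hmn
      rw [heq, h2] at h1
      exact absurd h1 (by decide)
    intro m n hmn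
    rcases lt_trichotomy m n with h | h | h
    · exact absurd hmn (key m n h)
    · exact h
    · exact absurd hmn.symm (key n m h)
  exact hxi.comp hφ.injective

end Q211.SG
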