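import Pool.Agent.Q83.SG.Stm

/-!
# Project SG, job PATK (helper211)
-/

set_option autoImplicit false

open MeasureTheory
open scoped ENNReal

namespace Pool.Agent.Q211.SG

open Pool.Agent.Q83.SG

/-- the number of points in a Hamming ball -/
theorem ball_card (k q : ℕ) (p : Fin k → Bool) :
    (((Finset.univ : Finset (Fin k → Bool)).filter fun s =>
      ((Finset.univ : Finset (Fin k)).filter fun i => p i ≠ s i).card ≤ q).card : ℝ) ≤
      2 ^ q * (3 / 2) ^ k := by
  classical
  have h1 : ∏ i : Fin k, ∑ b : Bool, (if p i ≠ b then (1 / 2 : ℝ) else 1) = (3 / 2) ^ k := by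
    have : ∀ i : Fin k, ∑ b : Bool, (if p i ≠ b then (1 / 2 : ℝ) else 1) = 3 / 2 := by
      intro i
      cases p i <;> simp <;> norm_num
    rw [Finset.prod_congr rfl fun i _ => this i, Finset.prod_const, Finset.card_univ,
      Fintype.card_fin]
  rw [Finset.prod_univ_sum, Fintype.piFinset_univ] at h1
  have h2 : ∀ s : Fin k → Bool, ∏ i : Fin k, (if p i ≠ s i then (1 / 2 : ℝ) else 1) =
      (1 / 2) ^ ((Finset.univ : Finset (Fin k)).filter fun i => p i ≠ s i).card := by
    intro s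
    rw [Finset.prod_ite, Finset.prod_const, Finset.prod_const_one, mul_one]
  rw [Finset.sum_congr rfl fun s _ => h2 s] at h1
  have h3 : (((Finset.univ : Finset (Fin k → Bool)).filter fun s =>
      ((Finset.univ : Finset (Fin k)).filter fun i => p i ≠ s i).card ≤ q).card : ℝ) *
      (1 / 2) ^ q ≤ (3 / 2) ^ k := by
    rw [← h1, ← nsmul_eq_mul, ← Finset.sum_const]
    refine (Finset.sum_le_sum fun s hs => ?_).trans
      (Finset.sum_le_sum_of_subset_of_nonneg (Finset.filter_subset _ _) fun s _ _ => by positivity)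
    exact pow_le_pow_of_le_one (by norm_num) (by norm_num) (Finset.mem_filter.1 hs).2
  have h4 : (1 / 2 : ℝ) ^ q * 2 ^ q = 1 := by
    rw [← mul_pow]; norm_num
  calc _ = _ * ((1 / 2 : ℝ) ^ q * 2 ^ q) := by rw [h4, mul_one]
    _ = (((Finset.univ : Finset (Fin k → Bool)).filter fun s =>
      ((Finset.univ : Finset (Fin k)).filter fun i => p i ≠ s i).card ≤ q).card : ℝ) *
      (1 / 2) ^ q * 2 ^ q := by ring
    _ ≤ (3 / 2) ^ k * 2 ^ q := by gcongr
    _ = _ := mul_comm _ _

/-- the deterministic part -/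
theorem det (n q : ℕ) (hq : 1 ≤ q) (hn : 2 * n ≤ 49 ^ q)
    (G : (Fin (16 * q) → Bool) → Set (Fin (16 * q) → Bool)) (hG : ∀ s, (G s).Nonempty)
    (a : (Fin (16 * q) → Bool) → ℕ)
    (ha : ∀ s, ∀ p ∈ G s, ((Finset.univ : Finset (Fin (16 * q))).filter fun i => p i ≠ s i).card ≤ a s)
    (hX : ∑ s, a s < q * 2 ^ (16 * q - 1)) : n ≤ (⋃ s, G s).ncard := by
  classical
  by_contra hlt
  push Not at hlt
  choose p hp using hG
  obtain ⟨Gd, hGd⟩ : ∃ Gd : Finset (Fin (16 * q) → Bool), Gd = Finset.univ.filter fun s => a s < q :=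
    ⟨_, rfl⟩
  -- many good patterns
  have h1 : 2 ^ (16 * q - 1) < Gd.card := by
    by_contra hc
    push Not at hc
    have h2 : Gd.card + (Finset.univ.filter fun s => ¬ a s < q).card = 2 ^ (16 * q) := by
      rw [hGd, Finset.card_filter_add_card_filter_not]
      simp
    have h3 : 2 ^ (16 * q) = 2 * 2 ^ (16 * q - 1) := by
      rw [← pow_succ']
      congr 1
      omega
    have h4 : 2 ^ (16 * q - 1) ≤ (Finset.univ.filter fun s => ¬ a s < q).card := by omega
    have h5 : q * (Finset.univ.filter fun s => ¬ a s < q).card ≤ ∑ s, a s := by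
      rw [mul_comm, ← smul_eq_mul, ← Finset.sum_const]
      refine (Finset.sum_le_sum fun s hs => ?_).trans
        (Finset.sum_le_sum_of_subset (Finset.filter_subset _ _))
      exact not_lt.1 (Finset.mem_filter.1 hs).2
    have h6 : q * 2 ^ (16 * q - 1) ≤ q * (Finset.univ.filter fun s => ¬ a s < q).card :=
      Nat.mul_le_mul_left _ h4
    omega
  -- few patterns near a given one
  have h2 : (Gd.card : ℝ) ≤ ((⋃ s, G s).ncard : ℝ) * (2 ^ q * (3 / 2) ^ (16 * q)) := by
    have hfin : (⋃ s, G s).Finite := Set.toFinite _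
    have h3 : Gd ⊆ hfin.toFinset.biUnion fun p' =>
        ((Finset.univ : Finset (Fin (16 * q) → Bool)).filter fun s =>
        ((Finset.univ : Finset (Fin (16 * q))).filter fun i => p' i ≠ s i).card ≤ q) := by
      intro s hs
      rw [hGd, Finset.mem_filter] at hs
      rw [Finset.mem_biUnion]
      refine ⟨p s, ?_, ?_⟩
      · rw [Set.Finite.mem_toFinset, Set.mem_iUnion]
        exact ⟨s, hp s⟩
      · rw [Finset.mem_filter]
        exact ⟨Finset.mem_univ _, (ha s (p s) (hp s)).trans hs.2.le⟩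
    have h4 := (Finset.card_le_card h3).trans Finset.card_biUnion_le
    have h5 : (Gd.card : ℝ) ≤ ∑ p' ∈ hfin.toFinset,
        (((Finset.univ : Finset (Fin (16 * q) → Bool)).filter fun s =>
        ((Finset.univ : Finset (Fin (16 * q))).filter fun i => p' i ≠ s i).card ≤ q).card : ℝ) := by
      exact_mod_cast h4
    refine h5.trans ((Finset.sum_le_sum fun p' _ => ball_card (16 * q) q p').trans ?_)
    rw [Finset.sum_const, nsmul_eq_mul, Set.ncard_eq_toFinset_card _ hfin]
  have h3 : (2 : ℝ) ^ (16 * q - 1) < n * (2 ^ q * (3 / 2) ^ (16 * q)) := by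
    have h4 : (2 : ℝ) ^ (16 * q - 1) < Gd.card := by exact_mod_cast h1
    refine (h4.trans_le h2).trans_le ?_
    have : ((⋃ s, G s).ncard : ℝ) ≤ n := by exact_mod_cast hlt.le
    gcongr
  have h4 : (2 : ℝ) * 2 ^ (16 * q - 1) = 2 ^ (16 * q) := by
    rw [← pow_succ']
    congr 1
    omega
  have h5 : (2 : ℝ) ^ (16 * q) < (2 * n) * (2 ^ q * (3 / 2) ^ (16 * q)) := by
    rw [← h4]
    linarith
  have h6 : ((2 * n : ℕ) : ℝ) ≤ 49 ^ q := by exact_mod_cast hn
  push_cast at h6
  have h7 : (2 * n : ℝ) * (2 ^ q * (3 / 2) ^ (16 * q)) ≤ 49 ^ q * (2 ^ q * (3 / 2) ^ (16 * q)) := by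
    gcongr
  have h8 : (49 : ℝ) ^ q * (2 ^ q * (3 / 2) ^ (16 * q)) ≤ 2 ^ (16 * q) := by
    rw [pow_mul, pow_mul, ← mul_pow, ← mul_pow]
    apply pow_le_pow_left₀ (by positivity)
    norm_num
  linarith

theorem t_PATK : S_PATK := by
  intro n
  obtain ⟨q, hq⟩ : ∃ q : ℕ, q = n + 1 := ⟨_, rfl⟩
  have hq1 : 1 ≤ q := by omega
  have hn : 2 * n ≤ 49 ^ q := by
    have h1 : q < 2 ^ q := Nat.lt_two_pow_self
    have h2 : (2 * 2 ^ q : ℕ) ≤ 49 ^ q := by
      calc 2 * 2 ^ q ≤ 2 ^ q * 2 ^ q := by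
            apply Nat.mul_le_mul_right
            calc 2 = 2 ^ 1 := rfl
              _ ≤ 2 ^ q := Nat.pow_le_pow_right (by norm_num) hq1
        _ = 4 ^ q := by rw [← mul_pow]; norm_num
        _ ≤ 49 ^ q := Nat.pow_le_pow_left (by norm_num) q
    omega
  refine ⟨16 * q, fun Ω _ P _ G hG hP => ?_⟩
  classical
  let A : (Fin (16 * q) → Bool) → Fin (16 * q) → Set Ω := fun s i =>
    toMeasurable P {ω | ∃ p ∈ G s ω, p i ≠ s i}
  have hAm : ∀ s i, MeasurableSet (A s i) := fun s i => measurableSet_toMeasurable _ _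
  have hAP : ∀ s i, P (A s i) ≤ ENNReal.ofReal (1 / 64) := fun s i => by
    rw [measure_toMeasurable]
    exact hP s i
  have hAs : ∀ s i ω, (∃ p ∈ G s ω, p i ≠ s i) → ω ∈ A s i := fun s i ω h =>
    subset_toMeasurable P _ h
  let X : Ω → ℝ≥0∞ := fun ω => ∑ s, ∑ i, (A s i).indicator 1 ω
  have hXm : Measurable X := Finset.measurable_sum _ fun s _ => Finset.measurable_sum _ fun i _ =>
    (measurable_one.indicator (hAm s i))
  have hEX : ∫⁻ ω, X ω ∂P ≤ ENNReal.ofReal (2 ^ (16 * q) * (16 * q) / 64) := by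
    rw [lintegral_finset_sum _ (fun s _ => Finset.measurable_sum _ fun i _ =>
      (measurable_one.indicator (hAm s i)))]
    have h1 : ∀ s, ∫⁻ ω, ∑ i, (A s i).indicator 1 ω ∂P ≤ ENNReal.ofReal ((16 * q) / 64) := by
      intro s
      rw [lintegral_finset_sum _ (fun i _ => (measurable_one.indicator (hAm s i)))]
      have h2 : ∀ i, ∫⁻ ω, (A s i).indicator 1 ω ∂P ≤ ENNReal.ofReal (1 / 64) := by
        intro i
        rw [lintegral_indicator_one (hAm s i)]
        exact hAP s i
      refine (Finset.sum_le_sum fun i _ => h2 i).trans ?_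
      rw [Finset.sum_const, Finset.card_univ, Fintype.card_fin, nsmul_eq_mul,
        ← ENNReal.ofReal_natCast, ← ENNReal.ofReal_mul (by positivity)]
      apply ENNReal.ofReal_le_ofReal
      push_cast
      linarith
    refine (Finset.sum_le_sum fun s _ => h1 s).trans ?_
    rw [Finset.sum_const, Finset.card_univ, nsmul_eq_mul,
      ← ENNReal.ofReal_natCast, ← ENNReal.ofReal_mul (by positivity)]
    apply ENNReal.ofReal_le_ofReal
    simp
    ring_nf
    exact le_rfl
  obtain ⟨c, hc⟩ : ∃ c : ℝ≥0∞, c = ((q * 2 ^ (16 * q - 1) : ℕ) : ℝ≥0∞) := ⟨_, rfl⟩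
  have hc0 : c ≠ 0 := by
    rw [hc]
    exact_mod_cast (by positivity : q * 2 ^ (16 * q - 1) ≠ 0)
  have hct : c ≠ ⊤ := by rw [hc]; exact ENNReal.natCast_ne_top _
  have hmk : P {ω | c ≤ X ω} ≤ ENNReal.ofReal (1 / 2) := by
    have h1 := meas_ge_le_lintegral_div hXm.aemeasurable hc0 hct (μ := P)
    refine h1.trans ?_
    rw [ENNReal.div_le_iff hc0 hct]
    refine hEX.trans ?_
    rw [hc, ← ENNReal.ofReal_natCast, ← ENNReal.ofReal_mul (by norm_num)]
    apply ENNReal.ofReal_le_ofReal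
    have h4 : (2 : ℝ) ^ (16 * q) = 2 * 2 ^ (16 * q - 1) := by
      rw [← pow_succ']
      congr 1
      omega
    rw [h4]
    push_cast
    apply le_of_eq
    ring
  have hsub : {ω | c ≤ X ω}ᶜ ⊆ {ω | n ≤ (⋃ s, G s ω).ncard} := by
    intro ω hω
    rw [Set.mem_compl_iff, Set.mem_setOf_eq, not_le] at hω
    refine det n q hq1 hn (fun s => G s ω) (fun s => hG s ω)
      (fun s => (Finset.univ.filter fun i => ω ∈ A s i).card) ?_ ?_
    · intro s p hp
      apply Finset.card_le_card
      intro i hi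
      rw [Finset.mem_filter] at hi ⊢
      exact ⟨hi.1, hAs s i ω ⟨p, hp, hi.2⟩⟩
    · have h1 : X ω = ((∑ s, (Finset.univ.filter fun i => ω ∈ A s i).card : ℕ) : ℝ≥0∞) := by
        change ∑ s, ∑ i, (A s i).indicator 1 ω = _
        push_cast
        refine Finset.sum_congr rfl fun s _ => ?_
        rw [Finset.card_filter]
        push_cast
        refine Finset.sum_congr rfl fun i _ => ?_
        rw [Set.indicator_apply]
        split_ifs <;> simp
      rw [h1, hc] at hω
      exact_mod_cast hω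
  have hm : MeasurableSet {ω | c ≤ X ω} := measurableSet_le measurable_const hXm
  refine le_trans ?_ (measure_mono hsub)
  rw [prob_compl_eq_one_sub hm]
  have h0 : ENNReal.ofReal (1 / 2) = 1 / 2 := by
    rw [ENNReal.ofReal_div_of_pos (by norm_num)]
    simp
  have h1 : (1 / 2 : ℝ≥0∞) = 1 - ENNReal.ofReal (1 / 2) := by
    rw [h0]
    exact (ENNReal.sub_half ENNReal.one_ne_top).symm
  rw [h1]
  exact tsub_le_tsub_left hmk 1

end Pool.Agent.Q211.SG
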