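import Pool.Agent.Q83.SG.Stm

/-!
# Project SG, job PEI0 (helper211)
-/

set_option autoImplicit false

namespace Pool.Agent.Q211.SG

open Pool.Agent.Q83.SG

theorem t_PEI0 (hE : S_ENE) : S_PEI0 := by
  intro m L h τ σ K J hτ hc hK hJ hD hmax
  obtain ⟨⟨T, hT, hσ⟩, hm⟩ := hmax
  by_contra hne
  have h0 : ((0 : Pt), h) ∈ T := by
    by_contra h0
    apply hne
    rw [hσ]
    unfold sw
    rw [if_neg h0]
  obtain ⟨D, hDc, hDb, hpair⟩ := hE m L h τ T hτ hc hT h0
  have h1 := hpair K J hK hJ
  have h2 : pair (flipAt (vert h D) J) (box m L) (sw (symmDiff T (D ×ˢ {h})) τ) ≤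
      mx (box m L) τ (flipAt (vert h D) J) := by
    unfold mx
    apply Finset.le_sup' (fun T => pair (flipAt (vert h D) J) (box m L) (sw T τ))
    rw [Finset.mem_powerset]
    intro u hu
    rcases Finset.mem_symmDiff.1 hu with hu | hu
    · exact hT hu.1
    · exact hDb hu.1
  have h3 : mx (box m L) τ J ≤ pair J (box m L) (sw T τ) := by
    unfold mx
    apply Finset.sup'_le
    intro T' hT'
    have := hm T' (Finset.mem_powerset.1 hT')
    rwa [hσ] at this
  have h4 := hD D hDc
  have h5 := neg_abs_le (mx (box m L) τ J - mx (box m L) τ (flipAt (vert h D) J))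
  have h6 : 0 ≤ K * ((bd D).card : ℝ) := by positivity
  linarith

end Pool.Agent.Q211.SG
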