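import Pool.Agent.Q83.SG.Stm

/-!
# Project SG, job TRN (helper211)
-/

set_option autoImplicit false

namespace Pool.Agent.Q211.SG

open Pool.Agent.Q83.SG

/-- translation of the bonds -/
def tb {m : ℕ} (x : Pt) : Bond m ≃ Bond m where
  toFun b := (b.1 + (x, 0), b.2)
  invFun b := (b.1 - (x, 0), b.2)
  left_inv b := by simp
  right_inv b := by simp

theorem plant_shift {m : ℕ} (x : Pt) (H : Set (Fin m → ℤ)) (ψ : ℝ → ℝ) (J : Bond m → ℝ) :
    plant H ψ (shift x J) = shift x (plant H ψ J) := by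
  funext b
  have e : (b.1 + ((x, 0) : Site m)).2 = b.1.2 := add_zero _
  unfold plant shift
  by_cases h : b.2.isLeft ∧ b.1.2 ∈ H
  · rw [if_pos h]
    exact (if_pos (show b.2.isLeft ∧ (b.1 + ((x, 0) : Site m)).2 ∈ H by rwa [e])).symm
  · rw [if_neg h]
    exact (if_neg (show ¬ (b.2.isLeft ∧ (b.1 + ((x, 0) : Site m)).2 ∈ H) by rwa [e])).symm

theorem far_tb {m : ℕ} (x : Pt) (b : Bond m) : far (tb x b) = far b + (x, 0) := by
  unfold far tb
  change b.1 + (x, 0) + dir b.2 = b.1 + dir b.2 + (x, 0)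
  abel

theorem t_TRN : S_TRN := by
  intro m x H ψ J
  refine ⟨plant_shift x H ψ J, fun σ hσ => ⟨fun v => hσ.1 _, fun ρ hρ hfin hne => ?_⟩⟩
  obtain ⟨ρ', hρ'⟩ : ∃ ρ' : Site m → ℝ, ρ' = fun v => ρ (v + (x, 0)) := ⟨_, rfl⟩
  have h1 : {v | ρ' v ≠ σ v}.Finite := by
    have h2 : {v | ρ' v ≠ σ v} = (fun v : Site m => v + (x, 0)) ⁻¹' {v | ρ v ≠ σ (v - (x, 0))} := by
      ext v
      simp [hρ']
    rw [h2]
    exact hfin.preimage (add_left_injective _).injOn
  have h3 : ρ' ≠ σ := by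
    intro h
    apply hne
    funext v
    have := congrFun h (v - (x, 0))
    rw [hρ'] at this
    simpa using this
  have h4 := hσ.2 ρ' (fun v => by rw [hρ']; exact hρ _) h1 h3
  rw [← finsum_comp_equiv (tb x)]
  refine lt_of_lt_of_eq h4 (finsum_congr fun b => ?_)
  rw [far_tb, hρ']
  have e1 : (tb x b).1 = b.1 + (x, 0) := rfl
  have e2 : shift x J b = J (tb x b) := rfl
  rw [e1, e2]
  simp only [add_sub_cancel_right]

end Pool.Agent.Q211.SG
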