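import Pool.Agent.Q211.SG.TRN
import Pool.Agent.Q297.BernMix

/-!
# Project SG, job ZO: zero-one law (helper211)
-/

set_option autoImplicit false

open MeasureTheory

namespace Pool.Agent.Q211.SG

open Pool.Agent.Q83.SG

theorem shift_meas {m : ℕ} (x : Pt) : Measurable (shift x : (Bond m → ℝ) → (Bond m → ℝ)) :=
  measurable_pi_lambda _ fun _ => measurable_pi_apply _

theorem t_ZO : S_ZO := by
  intro m μ _ F hF hF0
  obtain ⟨A, hA⟩ : ∃ A : Set (Bond m → ℝ), A = {J | ∃ x : Pt, shift x J ∈ F} := ⟨_, rfl⟩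
  have hAm : MeasurableSet A := by
    have : A = ⋃ x : Pt, shift x ⁻¹' F := by
      rw [hA]
      ext J
      simp
    rw [this]
    exact MeasurableSet.iUnion fun x => shift_meas x hF
  have h01 := Q297.Bern.zero_one (V := Bond m) μ hAm (by
    intro S
    obtain ⟨N, hN⟩ : ∃ N : ℤ, N = 2 * (∑ b ∈ S, |b.1.1 0|) + 1 := ⟨_, rfl⟩
    have hb : ∀ b ∈ S, |b.1.1 0| ≤ ∑ b ∈ S, |b.1.1 0| := fun b hb =>
      Finset.single_le_sum (f := fun b : Bond m => |b.1.1 0|) (fun _ _ => abs_nonneg _) hb
    refine ⟨tb (Pi.single 0 N), fun b hbS hgb => ?_, ?_⟩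
    · have h1 := hb b hbS
      have h2 := hb _ hgb
      have e : (tb (Pi.single 0 N : Pt) b).1.1 0 = b.1.1 0 + N := by
        simp [tb]
      rw [e] at h2
      rw [abs_le] at h1 h2
      have h3 : 0 ≤ ∑ b ∈ S, |b.1.1 0| := Finset.sum_nonneg fun _ _ => abs_nonneg _
      omega
    · have : Q297.Bern.act (tb (Pi.single 0 N : Pt)) ⁻¹' A = A := by
        have hsh : ∀ (x y : Pt) (J : Bond m → ℝ),
            shift x (Q297.Bern.act (tb y) J) = shift (x - y) J := by
          intro x y J
          funext b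
          change J ((tb y).symm (b.1 + (x, 0), b.2)) = J (b.1 + (x - y, 0), b.2)
          congr 1
          change (b.1 + (x, 0) - (y, 0), b.2) = (b.1 + (x - y, 0), b.2)
          rw [add_sub_assoc]
          simp
        ext J
        rw [Set.mem_preimage, hA, Set.mem_setOf_eq, Set.mem_setOf_eq]
        constructor
        · rintro ⟨x, hx⟩
          rw [hsh] at hx
          exact ⟨_, hx⟩
        · rintro ⟨x, hx⟩
          refine ⟨x + Pi.single 0 N, ?_⟩
          rw [hsh, add_sub_cancel_right]
          exact hx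
      rw [this])
  have hsub : F ⊆ A := by
    intro J hJ
    rw [hA]
    refine ⟨0, ?_⟩
    have : shift 0 J = J := by
      funext b
      unfold shift
      have : (b.1 + ((0 : Pt), (0 : Fin m → ℤ)), b.2) = b := by
        have h0 : (((0 : Pt), (0 : Fin m → ℤ)) : Site m) = 0 := rfl
        rw [h0, add_zero]
      rw [this]
    rw [this]
    exact hJ
  have hA0 : law m μ A ≠ 0 := fun h => hF0 (measure_mono_null hsub h)
  rcases h01 with h | h
  · exfalso
    apply hA0
    have := (measureReal_eq_zero_iff (μ := law m μ) (s := A)).1 h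
    exact this
  · have h1 : law m μ A = 1 := by
      have h2 : (law m μ A).toReal = 1 := h
      rw [← ENNReal.ofReal_toReal (measure_ne_top (law m μ) A), h2, ENNReal.ofReal_one]
    have h2 := (mem_ae_iff_prob_eq_one hAm).2 h1
    rw [hA] at h2
    exact h2

end Pool.Agent.Q211.SG
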